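import Mathlib

namespace Pool.Agent.Results.MP_96b1db_co.Q1

open Finset SimpleGraph

lemma dist_eq {V : Type} (G : SimpleGraph V) (y : V) (f : V → ℕ) (h0 : ∀ x, f x = 0 ↔ x = y)
    (h1 : ∀ x z, G.Adj x z → f x ≤ f z + 1) (h2 : ∀ x, x ≠ y → ∃ z, G.Adj x z ∧ f z + 1 = f x) (x : V) :
    G.Reachable x y ∧ G.dist x y = f x := by
  have up : ∀ n x, f x = n → ∃ p : G.Walk x y, p.length = n := by
    intro n
    induction n with
    | zero => intro x hx; obtain rfl := (h0 x).1 hx; exact ⟨.nil, rfl⟩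
    | succ n ih =>
      intro x hx
      obtain ⟨z, h3, h4⟩ := h2 x fun e => by rw [(h0 x).2 e] at hx; omega
      obtain ⟨p, hp⟩ := ih z (by omega)
      exact ⟨.cons h3 p, by simp [hp]⟩
  have lo : ∀ x w (p : G.Walk x w), f x ≤ f w + p.length := by
    intro x w p
    induction p with
    | nil => simp
    | cons h p ih => have := h1 _ _ h; rw [Walk.length_cons]; omega
  obtain ⟨p, hp⟩ := up _ x rfl
  refine ⟨⟨p⟩, le_antisymm (hp ▸ dist_le p) ?_⟩
  obtain ⟨q, hq⟩ := (Reachable.exists_walk_length_eq_dist ⟨p⟩ : ∃ q : G.Walk x y, _)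
  have := lo _ _ q
  rwa [(h0 y).2 rfl, zero_add, hq] at this

lemma spread (N p : ℕ) : ∀ m σ : ℕ, m ≤ σ → σ ≤ m * N →
    ∃ s : ℕ → ℕ, (∀ t, 1 ≤ s t ∧ s t ≤ max N 1) ∧ ∑ t ∈ Ico p (p + m), s t = σ := by
  intro m
  induction m with
  | zero => intro σ _ h; exact ⟨fun _ => 1, by simp, by simpa using (by simpa using h : σ = 0).symm⟩
  | succ m ih =>
    intro σ h1 h2
    have hN : 1 ≤ N := by
      by_contra h
      obtain rfl : N = 0 := by omega
      omega
    have h3 : m ≤ m * N := Nat.le_mul_of_pos_right _ hN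
    rw [Nat.succ_mul] at h2
    obtain ⟨s, h4, h5⟩ := ih (min (σ - 1) (m * N)) (by omega) (by omega)
    refine ⟨Function.update s (p + m) (σ - min (σ - 1) (m * N)), fun t => ?_, ?_⟩
    · by_cases h : t = p + m
      · rw [h, Function.update_self]; omega
      · rw [Function.update_of_ne h]; exact h4 t
    · rw [← add_assoc, sum_Ico_succ_top (by omega), Function.update_self, sum_congr rfl (g := s)
        fun t ht => Function.update_of_ne (by have := (mem_Ico.1 ht).2; omega) _ _, h5]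
      omega

/-- The distance function of the layered graph. -/
def dd (s : ℕ → ℕ) (x y : ℕ × ℕ) : ℕ :=
  (x.1 - y.1) + (y.1 - x.1) + if (if x.1 = 0 ∧ y.1 ≠ 0 then x.2 < s y.2
    else if y.1 = 0 ∧ x.1 ≠ 0 then y.2 < s x.2 else x.2 = y.2) then 0 else 1

lemma dd_comm (s : ℕ → ℕ) (x y : ℕ × ℕ) : dd s x y = dd s y x := by
  unfold dd; split_ifs <;> omega

lemma sp (s : ℕ → ℕ) (i t j u : ℕ) : (i = 0 ∧ j ≠ 0 ∧ t < s u ∧ dd s (i, t) (j, u) = j) ∨
    (i = 0 ∧ j ≠ 0 ∧ s u ≤ t ∧ dd s (i, t) (j, u) = j + 1) ∨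
    (j = 0 ∧ i ≠ 0 ∧ u < s t ∧ dd s (i, t) (j, u) = i) ∨
    (j = 0 ∧ i ≠ 0 ∧ s t ≤ u ∧ dd s (i, t) (j, u) = i + 1) ∨
    ((i = 0 ↔ j = 0) ∧ t = u ∧ dd s (i, t) (j, u) = i - j + (j - i)) ∨
    ((i = 0 ↔ j = 0) ∧ t ≠ u ∧ dd s (i, t) (j, u) = i - j + (j - i) + 1) := by
  simp only [dd]; split_ifs <;> omega

lemma tri (s : ℕ → ℕ) (i t k v j u : ℕ) (h : dd s (i, t) (k, v) = 1) :
    dd s (i, t) (j, u) ≤ dd s (k, v) (j, u) + 1 := by
  have h3 := sp s i t k v
  have h4 : t = v → s t = s v := congrArg s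
  have h5 : t = u → s t = s u := congrArg s
  have h6 : v = u → s v = s u := congrArg s
  rw [h] at h3
  rcases sp s i t j u with h1 | h1 | h1 | h1 | h1 | h1 <;>
    rcases sp s k v j u with h2 | h2 | h2 | h2 | h2 | h2 <;> omega

/-- Vertices. -/
def Vs (D : ℕ) (M : ℕ → ℕ) : Finset (ℕ × ℕ) := (range D ×ˢ range (M 0)).filter fun x => x.2 < M x.1

/-- The layered graph. -/
def Gr (D : ℕ) (M s : ℕ → ℕ) : SimpleGraph (Vs D M) where
  Adj x y := dd s x y = 1
  symm := ⟨fun x y h => by rw [dd_comm]; exact h⟩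
  loopless := ⟨fun x h => by simp [dd] at h⟩

lemma memV {D : ℕ} {M : ℕ → ℕ} (hM : Antitone M) {x : ℕ × ℕ} : x ∈ Vs D M ↔ x.1 < D ∧ x.2 < M x.1 := by
  simp only [Vs, mem_filter, mem_product, mem_range]
  exact ⟨fun h => ⟨h.1.1, h.2⟩, fun h => ⟨⟨h.1, h.2.trans_le (hM (Nat.zero_le _))⟩, h.2⟩⟩

lemma Gr_dist {D : ℕ} {M s : ℕ → ℕ} (hM : Antitone M) (hs : ∀ t, 1 ≤ s t) (x y : Vs D M) :
    (Gr D M s).Reachable x y ∧ (Gr D M s).dist x y = dd s x y := by
  refine dist_eq _ y (fun x => dd s x y) ?_ ?_ ?_ x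
  · rintro ⟨⟨i, t⟩, hx⟩
    obtain ⟨⟨j, u⟩, hy⟩ := y
    have := sp s i t j u
    simp only [Subtype.mk.injEq, Prod.mk.injEq]
    omega
  · rintro ⟨⟨i, t⟩, hx⟩ ⟨⟨k, v⟩, hz⟩ h
    exact tri s i t k v y.1.1 y.1.2 h
  · rintro ⟨⟨i, t⟩, hx⟩ hne
    obtain ⟨⟨j, u⟩, hy⟩ := y
    have hx' := (memV hM).1 hx
    have hy' := (memV hM).1 hy
    simp only [ne_eq, Subtype.mk.injEq, Prod.mk.injEq] at hne hx' hy'
    have hu := hs u
    have ht := hs t
    have h0 := sp s i t j u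
    have h5 : t = u → s t = s u := congrArg s
    have key : ∀ k v, k < D → v < M k → dd s (i, t) (k, v) = 1 ∧ dd s (k, v) (j, u) + 1 = dd s (i, t) (j, u) →
        ∃ z : Vs D M, (Gr D M s).Adj ⟨(i, t), hx⟩ z ∧ dd s z (j, u) + 1 = dd s (i, t) (j, u) :=
      fun k v h1 h2 h3 => ⟨⟨(k, v), (memV hM).2 ⟨h1, h2⟩⟩, h3⟩
    rcases lt_trichotomy i j with h | h | h
    · by_cases h1 : dd s (i, t) (j, u) = j - i
      · refine key (i + 1) u (by omega) (hy'.2.trans_le (hM h)) ?_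
        have := sp s i t (i + 1) u
        have := sp s (i + 1) u j u
        omega
      · have := hM h.le
        by_cases h2 : i = 0
        · refine key i 0 hx'.1 (by omega) ?_
          have := sp s i t i 0
          have := sp s i 0 j u
          omega
        · refine key i u hx'.1 (by omega) ?_
          have := sp s i t i u
          have := sp s i u j u
          omega
    · refine key j u hy'.1 hy'.2 ?_
      have := sp s j u j u
      omega
    · by_cases h1 : i = 1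
      · obtain rfl : j = 0 := by omega
        by_cases h2 : u < s t
        · refine key 0 u hy'.1 hy'.2 ?_
          have := sp s 0 u 0 u
          omega
        · refine key 0 0 hy'.1 (by omega) ?_
          have := sp s i t 0 0
          have := sp s 0 0 0 u
          omega
      · refine key (i - 1) t (by omega) (hx'.2.trans_le (hM (by omega))) ?_
        have := sp s i t (i - 1) t
        have := sp s (i - 1) t j u
        omega

/-- Outer pairs at distance `k + 1`. -/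
def qq (D : ℕ) (M : ℕ → ℕ) (k : ℕ) : ℕ := #((Vs D M ×ˢ Vs D M).filter fun p =>
  0 < p.1.1 ∧ p.1.1 < p.2.1 ∧ dd (fun _ => 0) p.1 p.2 = k + 1)

lemma count {D : ℕ} {M s : ℕ → ℕ} (hM : Antitone M) (hD : M D = 0) (hs : ∀ t, s t ≤ M 0) {k : ℕ}
    (h1 : 1 ≤ k) (h2 : k < D) :
    #((Vs D M ×ˢ Vs D M).filter fun p => dd s p.1 p.2 = k + 1) + 2 * ∑ t ∈ Ico (M (k + 1)) (M k), s t =
      2 * (qq D M k + M 0 * M k) := by
  have e1 : #((Vs D M ×ˢ Vs D M).filter fun p => dd s p.1 p.2 = k + 1) =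
      2 * #((Vs D M ×ˢ Vs D M).filter fun p => p.1.1 < p.2.1 ∧ dd s p.1 p.2 = k + 1) := by
    rw [two_mul, ← card_filter_add_card_filter_not (fun p : (ℕ × ℕ) × ℕ × ℕ => p.1.1 < p.2.1),
      filter_filter, filter_filter]
    congr 1
    · exact congrArg _ (filter_congr fun _ _ => and_comm)
    · refine card_bij' (fun p _ => p.swap) (fun p _ => p.swap) (fun p hp => ?_) (fun p hp => ?_)
        (by simp) (by simp) <;> simp only [mem_filter, mem_product, Prod.fst_swap, Prod.snd_swap] at hp ⊢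
      · refine ⟨hp.1.symm, ?_, dd_comm _ _ _ ▸ hp.2.1⟩
        have := hp.2
        unfold dd at this
        split_ifs at this <;> omega
      · exact ⟨hp.1.symm, dd_comm _ _ _ ▸ hp.2.2, by omega⟩
  have e2 : (Vs D M ×ˢ Vs D M).filter (fun p => p.1.1 < p.2.1 ∧ dd s p.1 p.2 = k + 1) =
      ((Vs D M ×ˢ Vs D M).filter fun p => 0 < p.1.1 ∧ p.1.1 < p.2.1 ∧ dd (fun _ => 0) p.1 p.2 = k + 1) ∪
      (((range (M (k + 1))).sigma fun t => range (s t)).image (fun x => ((0, x.2), (k + 1, x.1))) ∪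
        ((range (M k)).sigma fun t => Ico (s t) (M 0)).image fun x => ((0, x.2), (k, x.1))) := by
    ext ⟨⟨i, t⟩, j, u⟩
    have h3 : M (k + 1) ≠ 0 → k + 1 < D := fun h => by
      by_contra h4
      exact h (by rw [show k + 1 = D by omega, hD])
    have := hs u
    simp only [mem_filter, mem_product, memV hM, mem_union, mem_image, mem_sigma, mem_range, mem_Ico,
      Prod.mk.injEq, Sigma.exists, dd]
    constructor
    · rintro ⟨h4, h5, h6⟩
      by_cases hi : i = 0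
      · subst hi
        by_cases h7 : t < s u
        · exact Or.inr (Or.inl ⟨u, t, by split_ifs at h6 <;> grind⟩)
        · exact Or.inr (Or.inr ⟨u, t, by split_ifs at h6 <;> grind⟩)
      · exact Or.inl ⟨h4, by omega, h5, by split_ifs at h6 ⊢ <;> omega⟩
    · rintro (⟨h4, h5, h6, h7⟩ | ⟨a, b, h4, ⟨rfl, rfl⟩, rfl, rfl⟩ | ⟨a, b, h4, ⟨rfl, rfl⟩, rfl, rfl⟩)
      · exact ⟨h4, h6, by split_ifs at h7 ⊢ <;> omega⟩
      · exact ⟨by omega, by omega, by split_ifs <;> omega⟩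
      · exact ⟨by omega, by omega, by split_ifs <;> omega⟩
  rw [e1, e2, card_union_of_disjoint, card_union_of_disjoint, card_image_of_injective,
    card_image_of_injective, card_sigma, card_sigma]
  · simp only [card_range, Nat.card_Ico]
    have e3 := sum_range_add_sum_Ico s (hM (Nat.le_succ k))
    have e4 : ∑ t ∈ range (M k), (M 0 - s t) + ∑ t ∈ range (M k), s t = M 0 * M k := by
      rw [← sum_add_distrib, sum_congr rfl fun t _ => Nat.sub_add_cancel (hs t)]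
      simp [mul_comm]
    unfold qq
    simp only [Nat.succ_eq_add_one] at e3
    omega
  · rintro ⟨a, b⟩ ⟨c, d⟩ h; simp_all
  · rintro ⟨a, b⟩ ⟨c, d⟩ h; simp_all
  · rw [Finset.disjoint_left]
    simp only [mem_image]
    rintro _ ⟨x, -, rfl⟩ ⟨y, -, h⟩
    simp at h
  · rw [Finset.disjoint_left]
    simp only [mem_union, mem_image, mem_filter]
    rintro p ⟨-, h, -⟩ (⟨x, -, rfl⟩ | ⟨x, -, rfl⟩) <;> simp at h

lemma cardV {D : ℕ} {M : ℕ → ℕ} (hM : Antitone M) : #(Vs D M) = ∑ k ∈ range D, M k := by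
  rw [card_eq_sum_card_fiberwise (f := Prod.fst) (t := range D) fun x hx =>
    mem_coe.2 (mem_range.2 ((memV hM).1 hx).1)]
  refine sum_congr rfl fun k hk => ?_
  rw [show filter (fun x => x.1 = k) (Vs D M) = (range (M k)).image fun t => (k, t) by
    ext ⟨i, t⟩
    simp only [mem_filter, memV hM, mem_image, mem_range, Prod.mk.injEq] at *
    exact ⟨fun ⟨⟨_, h⟩, e⟩ => ⟨t, e ▸ h, e.symm, rfl⟩, fun ⟨a, h, e, f⟩ => by subst e f; simp [*]⟩,
    card_image_of_injective _ fun a b h => by simpa using h, card_range]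

lemma qq_le {D : ℕ} {M : ℕ → ℕ} (hM : Antitone M) (k : ℕ) : qq D M k ≤ #(Vs D M) * (D * M (k + 1)) := by
  rw [← card_range D, ← card_range (M (k + 1)), ← card_product, ← card_product, card_range]
  refine card_le_card fun ⟨⟨i, t⟩, j, u⟩ hp => ?_
  simp only [mem_filter, mem_product, memV hM, mem_range, dd] at hp ⊢
  refine ⟨hp.1.1, hp.1.2.1, hp.1.2.2.trans_le (hM ?_)⟩
  have := hp.2
  split_ifs at this <;> omega

theorem result (D : ℕ) : ∃ (V : Type) (_ : Fintype V) (_ : DecidableEq V) (G : SimpleGraph V),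
    G.Connected ∧ (∃ u v, D ≤ G.dist u v) ∧ ∀ z : ℂ,
      ∑ p ∈ (univ : Finset V).offDiag, z ^ G.dist p.1 p.2 = 0 → ∃ q : ℚ, z = q := by
  wlog hD1 : 0 < D generalizing D
  · obtain ⟨V, a, b, G, h1, ⟨u, v, -⟩, h2⟩ := this 1 one_pos
    exact ⟨V, a, b, G, h1, ⟨u, v, by omega⟩, h2⟩
  obtain ⟨a, ha⟩ : ∃ a, a = 8 * (D + 1) ^ 2 := ⟨_, rfl⟩
  obtain ⟨M, hM⟩ : ∃ M : ℕ → ℕ, ∀ k, M k = 2 * (D.choose k * a ^ (D - k)) := ⟨_, fun _ => rfl⟩
  have ha0 : 0 < a := by rw [ha]; positivity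
  have m1 : ∀ k, a * M (k + 1) ≤ D * M k := fun k => by
    rw [hM, hM]
    rcases lt_or_ge k D with h | h
    · have h1 := Nat.choose_succ_right_eq D k
      have h2 : D.choose (k + 1) ≤ D.choose k * D := by
        have := Nat.mul_le_mul_left (D.choose k) (Nat.sub_le D k)
        nlinarith
      rw [show D - k = D - (k + 1) + 1 by omega, pow_succ]
      have := Nat.mul_le_mul_right (2 * a ^ (D - (k + 1)) * a) h2
      nlinarith
    · simp [Nat.choose_eq_zero_of_lt (Nat.lt_succ_of_le h)]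
  have m2 : ∀ k, 8 * (D + 1) * M (k + 1) ≤ M k := fun k =>
    Nat.le_of_mul_le_mul_left (c := D + 1) (by have := m1 k; rw [ha] at this; nlinarith)
      (Nat.succ_pos D)
  have hA : Antitone M := antitone_nat_of_succ_le fun k => by nlinarith [m2 k]
  have hD : M (D + 1) = 0 := by simp [hM]
  have h0 : ∀ k ≤ D, 0 < M k := fun k hk => by have := Nat.choose_pos hk; rw [hM]; positivity
  obtain ⟨n, hn⟩ : ∃ n, #(Vs (D + 1) M) = n + 1 := Nat.exists_eq_succ_of_ne_zero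
    (card_ne_zero.2 ⟨(0, 0), (memV hA).2 ⟨by simp, h0 0 (by simp)⟩⟩)
  have n1 : M 0 ≤ n + 1 ∧ 8 * (n + 1) ≤ 9 * M 0 := by
    rw [← hn, cardV hA, sum_range_succ']
    have := sum_le_card_nsmul (range D) (fun k => M (k + 1)) (M 1) fun k _ => hA (by omega)
    rw [card_range, smul_eq_mul] at this
    exact ⟨by omega, by nlinarith [m2 0]⟩
  have n2 : 8 ≤ M 0 := by
    rw [hM, Nat.choose_zero_right, one_mul, Nat.sub_zero]
    have := Nat.le_self_pow hD1.ne' a
    nlinarith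
  have ex : ∀ k, ∃ s : ℕ → ℕ, (∀ t, 1 ≤ s t ∧ s t ≤ M 0) ∧ 2 * ∑ t ∈ Ico (M (k + 1)) (M k), s t + n * M k =
      2 * (qq (D + 1) M k + M 0 * M k) := fun k => by
    obtain ⟨m, hm⟩ := Nat.exists_eq_add_of_le (hA (Nat.le_succ k))
    obtain ⟨c, hc⟩ : ∃ c, M k = 2 * c := ⟨_, hM k⟩
    have q1 := qq_le (D := D + 1) hA k
    have q2 := m2 k
    rw [hn] at q1
    simp only [Nat.succ_eq_add_one] at hm
    generalize qq (D + 1) M k = q at *
    have q3 : 8 * q ≤ (n + 1) * M k := by nlinarith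
    have q4 : 8 * M (k + 1) ≤ M k := by nlinarith
    have q5 : n * c + m ≤ q + M 0 * M k := by nlinarith
    obtain ⟨s, h1, h2⟩ := spread (M 0) (M (k + 1)) m (q + M 0 * M k - n * c) (by omega) (by
      rw [tsub_le_iff_right]; nlinarith)
    refine ⟨s, by rwa [max_eq_left (by omega)] at h1, ?_⟩
    rw [← hm] at h2
    have : n * M k = 2 * (n * c) := by rw [hc]; ring
    omega
  choose s0 hs0 hs1 using ex
  obtain ⟨s, hs, hs2⟩ : ∃ s : ℕ → ℕ, (∀ t, 1 ≤ s t ∧ s t ≤ M 0) ∧ ∀ k ≤ D,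
      ∑ t ∈ Ico (M (k + 1)) (M k), s t = ∑ t ∈ Ico (M (k + 1)) (M k), s0 k t := by
    refine ⟨fun t => s0 (Nat.findGreatest (fun k => t < M k) D) t, fun t => hs0 _ _, fun k hk =>
      sum_congr rfl fun t ht => ?_⟩
    dsimp only
    rw [Nat.findGreatest_eq_iff.2 ⟨hk, fun _ => (mem_Ico.1 ht).2, fun j h _ =>
      not_lt.2 ((hA h).trans (mem_Ico.1 ht).1)⟩]
  obtain ⟨c, hc⟩ : ∃ c : ℕ → ℕ, ∀ k, c k =
    #((Vs (D + 1) M).offDiag.filter fun p => dd s p.1 p.2 - 1 = k) := ⟨_, fun _ => rfl⟩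
  have pos : ∀ p ∈ (Vs (D + 1) M).offDiag, 1 ≤ dd s p.1 p.2 ∧ dd s p.1 p.2 ≤ D + 1 := by
    rintro ⟨⟨i, t⟩, j, u⟩ hp
    simp only [mem_offDiag, memV hA, ne_eq, Prod.mk.injEq, dd] at hp ⊢
    split_ifs <;> omega
  have mp : ∀ p ∈ (Vs (D + 1) M).offDiag, dd s p.1 p.2 - 1 ∈ range (D + 1) := fun p hp => by
    have := pos p hp; rw [mem_range]; omega
  have c1 : ∀ k ∈ range D, c (k + 1) = n * M (k + 1) := fun k hk => by
    have h1 := count hA hD (fun t => (hs t).2) (k := k + 1) (by omega) (by simpa using hk)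
    have h2 := hs1 (k + 1)
    rw [hs2 (k + 1) (mem_range.1 hk)] at h1
    rw [hc, show filter (fun p => dd s p.1 p.2 - 1 = k + 1) (Vs (D + 1) M).offDiag =
      (Vs (D + 1) M ×ˢ Vs (D + 1) M).filter fun p => dd s p.1 p.2 = k + 1 + 1 from ?_]
    · omega
    ext ⟨x, y⟩
    simp only [mem_filter, mem_offDiag, mem_product]
    refine ⟨fun h => ⟨⟨h.1.1, h.1.2.1⟩, by omega⟩, fun h => ⟨⟨h.1.1, h.1.2, ?_⟩, by omega⟩⟩
    rintro rfl
    simp [dd] at h
  have c2 : ∀ k ∈ range (D + 1), c k = n * M k := by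
    have h1 := card_eq_sum_card_fiberwise mp
    rw [offDiag_card, hn, sum_congr rfl fun k _ => (hc k).symm, sum_range_succ', sum_congr rfl c1,
      ← mul_sum] at h1
    have h2 := hn.symm.trans (cardV hA)
    rw [sum_range_succ'] at h2
    intro k hk
    cases k with
    | zero =>
      rw [tsub_eq_iff_eq_add_of_le (by nlinarith)] at h1
      nlinarith
    | succ k => exact c1 k (by simpa using hk)
  have gd := Gr_dist (D := D + 1) hA fun t => (hs t).1
  have v0 : (0, 0) ∈ Vs (D + 1) M := (memV hA).2 ⟨by simp, h0 0 (by simp)⟩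
  refine ⟨Vs (D + 1) M, inferInstance, inferInstance, Gr _ M s, @Connected.mk _ _ (fun x y => (gd x y).1)
    ⟨⟨_, v0⟩⟩, ⟨⟨(D, 0), (memV hA).2 ⟨by simp, h0 D le_rfl⟩⟩, ⟨_, v0⟩, by rw [(gd _ _).2, dd]; dsimp only; omega⟩,
    fun z hz => ?_⟩
  have e1 : ∑ p ∈ (Vs (D + 1) M).offDiag, z ^ dd s p.1 p.2 = 0 := by
    rw [← hz]
    refine (sum_bij (fun p _ => (p.1.1, p.2.1)) (fun p hp => ?_) (fun p _ q _ h => ?_) (fun p hp => ?_)
      fun p _ => by rw [(gd _ _).2]).symm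
    · exact mem_offDiag.2 ⟨p.1.2, p.2.2, Subtype.coe_injective.ne (mem_offDiag.1 hp).2.2⟩
    · exact Prod.ext (Subtype.ext (congrArg Prod.fst h)) (Subtype.ext (congrArg Prod.snd h))
    · obtain ⟨h1, h2, h3⟩ := mem_offDiag.1 hp
      exact ⟨(⟨_, h1⟩, ⟨_, h2⟩), mem_offDiag.2 ⟨mem_univ _, mem_univ _, by simpa using h3⟩, rfl⟩
  have e2 : ∑ p ∈ (Vs (D + 1) M).offDiag, z ^ dd s p.1 p.2 = 2 * n * z * (z + a) ^ D := by
    rw [← sum_fiberwise_of_maps_to mp, add_pow, mul_sum]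
    refine sum_congr rfl fun k hk => ?_
    rw [sum_congr rfl (g := fun _ => z ^ (k + 1)) fun p hp => by
      have := (pos p (mem_filter.1 hp).1).1
      rw [← (mem_filter.1 hp).2, Nat.sub_add_cancel this], sum_const, ← hc, c2 k hk, hM]
    simp only [nsmul_eq_mul]
    push_cast
    ring
  rw [e1, eq_comm, mul_eq_zero, mul_eq_zero, mul_eq_zero] at e2
  rcases e2 with ((h | h) | h) | h
  · simp at h
  · have : n = 0 := by exact_mod_cast h
    omega
  · exact ⟨0, by simpa using h⟩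
  · exact ⟨-a, by simpa using eq_neg_of_add_eq_zero_left (pow_eq_zero_iff'.1 h).1⟩

end Pool.Agent.Results.MP_96b1db_co.Q1
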